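import Pool.Agent.Y192.KC.ZDefs
import Pool.Agent.Y768.KC.Rad0

/-!
One-parameter groups of a projective variety and of its intersection with the torus
(`Pool.Agent.Y192.KC.St_zred`).
-/

set_option autoImplicit false

namespace Pool.Agent.Y658.KZ

open MvPolynomial Pool.Agent.Y192.OG Pool.Agent.Y192.KC

variable {n : ℕ}

/-! ### Laurent polynomials -/

/-- the weight of an exponent -/
def wt (l : Fin n → ℤ) (m : Fin n → ℤ) : ℤ := ∑ i, l i * m i

theorem wt_add (l m m' : Fin n → ℤ) : wt l (m + m') = wt l m + wt l m' := by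
  unfold wt
  rw [← Finset.sum_add_distrib]
  exact Finset.sum_congr rfl fun i _ => by rw [Pi.add_apply, mul_add]

theorem wpart_coeff' (l : Fin n → ℤ) (k : ℤ) (g : Lau n) (m : Fin n → ℤ) :
    (wpart l k g).coeff m = if wt l m = k then g.coeff m else 0 := wpart_coeff l k g m

theorem lau_ext {g h : Lau n} (H : ∀ m, g.coeff m = h.coeff m) : g = h :=
  AddMonoidAlgebra.coeff_injective (Finsupp.ext H)

theorem wpart_add (l : Fin n → ℤ) (k : ℤ) (g h : Lau n) :
    wpart l k (g + h) = wpart l k g + wpart l k h := by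
  apply lau_ext
  intro m
  rw [AddMonoidAlgebra.coeff_add, Finsupp.add_apply, wpart_coeff', wpart_coeff', wpart_coeff',
    AddMonoidAlgebra.coeff_add, Finsupp.add_apply]
  split_ifs <;> simp

theorem wpart_zero (l : Fin n → ℤ) (k : ℤ) : wpart l k (0 : Lau n) = 0 := by
  apply lau_ext
  intro m
  rw [wpart_coeff']
  simp

theorem wpart_sub (l : Fin n → ℤ) (k : ℤ) (g h : Lau n) :
    wpart l k (g - h) = wpart l k g - wpart l k h := by
  have h1 := wpart_add l k (g - h) h
  rw [sub_add_cancel] at h1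
  rw [h1, add_sub_cancel_right]

theorem wpart_sum {ι : Type} (l : Fin n → ℤ) (k : ℤ) (s : Finset ι) (g : ι → Lau n) :
    wpart l k (∑ i ∈ s, g i) = ∑ i ∈ s, wpart l k (g i) := by
  classical
  induction s using Finset.induction_on with
  | empty => simp [wpart_zero]
  | insert a s ha ih => rw [Finset.sum_insert ha, Finset.sum_insert ha, wpart_add, ih]

theorem wpart_single (l : Fin n → ℤ) (k : ℤ) (m : Fin n → ℤ) (c : ℂ) :
    wpart l k (AddMonoidAlgebra.single m c : Lau n) =
      if wt l m = k then AddMonoidAlgebra.single m c else 0 := by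
  apply lau_ext
  intro m'
  rw [wpart_coeff', AddMonoidAlgebra.coeff_single, Finsupp.single_apply]
  by_cases h : m = m'
  · subst h
    by_cases h1 : wt l m = k
    · rw [if_pos h1, if_pos h1, AddMonoidAlgebra.coeff_single, Finsupp.single_apply]
    · rw [if_neg h1, if_neg h1]
      simp
  · rw [if_neg h]
    have : (if wt l m = k then (AddMonoidAlgebra.single m c : Lau n) else 0).coeff m' = 0 := by
      split_ifs with h1
      · rw [AddMonoidAlgebra.coeff_single, Finsupp.single_apply, if_neg h]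
      · simp
    rw [this]
    simp

theorem wpart_single_mul (l : Fin n → ℤ) (k : ℤ) (m : Fin n → ℤ) (c : ℂ) (g : Lau n) :
    wpart l k (AddMonoidAlgebra.single m c * g) =
      AddMonoidAlgebra.single m c * wpart l (k - wt l m) g := by
  induction g using AddMonoidAlgebra.induction_linear with
  | zero => simp [wpart_zero]
  | add g h hg hh => rw [mul_add, wpart_add, hg, hh, wpart_add, mul_add]
  | single m' c' =>
    rw [AddMonoidAlgebra.single_mul_single, wpart_single, wpart_single, wt_add]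
    by_cases h : wt l m + wt l m' = k
    · rw [if_pos h, if_pos (by omega), AddMonoidAlgebra.single_mul_single]
    · rw [if_neg h, if_neg (by omega), mul_zero]

theorem as_sum (g : Lau n) :
    g = ∑ m ∈ g.coeff.support, AddMonoidAlgebra.single m (g.coeff m) :=
  (AddMonoidAlgebra.sum_coeff_single g).symm

/-- multiplication by a Laurent polynomial of weight `w` -/
theorem wpart_mul (l : Fin n → ℤ) (k w : ℤ) (D g : Lau n)
    (hD : ∀ m ∈ D.coeff.support, wt l m = w) :
    wpart l k (D * g) = D * wpart l (k - w) g := by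
  conv_lhs => rw [as_sum D]
  conv_rhs => rw [as_sum D]
  rw [Finset.sum_mul, Finset.sum_mul, wpart_sum]
  refine Finset.sum_congr rfl fun m hm => ?_
  rw [wpart_single_mul, hD m hm]

theorem wpart_hom (l : Fin n → ℤ) (k w : ℤ) (D : Lau n)
    (hD : ∀ m ∈ D.coeff.support, wt l m = w) : wpart l k D = if w = k then D else 0 := by
  apply lau_ext
  intro m
  rw [wpart_coeff']
  by_cases hm : m ∈ D.coeff.support
  · rw [hD m hm]
    split_ifs <;> simp
  · have h0 : D.coeff m = 0 := Finsupp.notMem_support_iff.mp hm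
    have : (if w = k then D else 0).coeff m = 0 := by
      split_ifs
      · exact h0
      · simp
    rw [this, h0]
    simp

/-- decomposition into parts -/
theorem sum_wpart (l : Fin n → ℤ) (g : Lau n) :
    g = ∑ k ∈ g.coeff.support.image (wt l), wpart l k g := by
  classical
  apply lau_ext
  intro m
  rw [AddMonoidAlgebra.coeff_sum, Finsupp.finsetSum_apply]
  simp only [wpart_coeff']
  by_cases hm : m ∈ g.coeff.support
  · rw [Finset.sum_eq_single (wt l m)]
    · rw [if_pos rfl]
    · intro b _ hb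
      rw [if_neg (Ne.symm hb)]
    · intro h
      exact absurd (Finset.mem_image_of_mem _ hm) h
  · have h0 : g.coeff m = 0 := Finsupp.notMem_support_iff.mp hm
    rw [h0]
    symm
    refine Finset.sum_eq_zero fun k _ => ?_
    split_ifs <;> rfl

theorem sub_wpart_mem (J : Ideal (Lau n)) (l : Fin n → ℤ) (k0 : ℤ) (g : Lau n)
    (h : ∀ k, k ≠ k0 → wpart l k g ∈ J) : g - wpart l k0 g ∈ J := by
  classical
  have h1 : g - wpart l k0 g = ∑ k ∈ (g.coeff.support.image (wt l)).erase k0, wpart l k g := by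
    by_cases hk : k0 ∈ g.coeff.support.image (wt l)
    · have h0 : wpart l k0 g + ∑ k ∈ (g.coeff.support.image (wt l)).erase k0, wpart l k g = g := by
        rw [Finset.add_sum_erase _ (fun k => wpart l k g) hk]
        exact (sum_wpart l g).symm
      exact sub_eq_iff_eq_add'.mpr h0.symm
    · have h2 : wpart l k0 g = 0 := by
        apply lau_ext
        intro m
        rw [wpart_coeff']
        split_ifs with h3
        · by_contra h4
          apply hk
          rw [← h3]
          exact Finset.mem_image_of_mem _ (Finsupp.mem_support_iff.mpr h4)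
        · simp
      rw [h2, sub_zero, Finset.erase_eq_of_notMem hk]
      exact sum_wpart l g
  rw [h1]
  exact J.sum_mem fun k hk => h k (Finset.ne_of_mem_erase hk)

/-! ### Forms -/

/-- the weights on the projective space -/
def lc (l : Fin n → ℤ) : Fin (n + 1) → ℤ := Fin.cons (α := fun _ => ℤ) 0 l

/-- the weight of the exponent of a monomial -/
def wc (l : Fin (n + 1) → ℤ) (c : Fin (n + 1) →₀ ℕ) : ℤ := ∑ i, l i * c i

theorem wc_lc (l : Fin n → ℤ) (c : Fin (n + 1) →₀ ℕ) :
    wc (lc l) c = wt l (Pool.Agent.Y768.KC.sh c) := by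
  unfold wc wt lc Pool.Agent.Y768.KC.sh
  rw [Fin.sum_univ_succ]
  simp

theorem wp_coeff (l : Fin (n + 1) → ℤ) (k : ℤ) (A : MvPolynomial (Fin (n + 1)) ℂ)
    (c : Fin (n + 1) →₀ ℕ) : coeff c (wp l k A) = if wc l c = k then coeff c A else 0 := by
  classical
  unfold wp
  rw [coeff_sum]
  simp only [coeff_monomial]
  rw [Finset.sum_ite_eq' _ c]
  simp only [Finset.mem_filter, mem_support_iff, ne_eq]
  by_cases h : wc l c = k
  · rw [if_pos h]
    by_cases h2 : coeff c A = 0
    · rw [h2]
      simp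
    · rw [if_pos (show ¬coeff c A = 0 ∧ ∑ i, l i * (c i : ℤ) = k from ⟨h2, h⟩)]
  · rw [if_neg h, if_neg (fun h3 : ¬coeff c A = 0 ∧ ∑ i, l i * (c i : ℤ) = k => h h3.2)]

theorem wp_sum {ι : Type} (l : Fin (n + 1) → ℤ) (k : ℤ) (s : Finset ι)
    (A : ι → MvPolynomial (Fin (n + 1)) ℂ) :
    wp l k (∑ i ∈ s, A i) = ∑ i ∈ s, wp l k (A i) := by
  ext c
  rw [wp_coeff, coeff_sum, coeff_sum]
  simp only [wp_coeff]
  split_ifs
  · rfl
  · simp

theorem wp_hom (l : Fin (n + 1) → ℤ) (k : ℤ) {A : MvPolynomial (Fin (n + 1)) ℂ} {d : ℕ}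
    (hA : A.IsHomogeneous d) : (wp l k A).IsHomogeneous d := by
  intro c hc
  rw [wp_coeff] at hc
  split_ifs at hc with h
  · exact hA hc
  · exact absurd rfl hc

theorem laur_eq (A : MvPolynomial (Fin (n + 1)) ℂ) : laur A = Pool.Agent.Y768.KC.laurL A := rfl

theorem laur_monomial (c : Fin (n + 1) →₀ ℕ) (a : ℂ) :
    laur (monomial c a) = AddMonoidAlgebra.single (Pool.Agent.Y768.KC.sh c) a :=
  Pool.Agent.Y768.KC.laurL_monomial c a

theorem laur_mul (A B : MvPolynomial (Fin (n + 1)) ℂ) : laur (A * B) = laur A * laur B :=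
  Pool.Agent.Y768.KC.laurL_mul A B

theorem laur_sub (A B : MvPolynomial (Fin (n + 1)) ℂ) : laur (A - B) = laur A - laur B :=
  Pool.Agent.Y768.KC.laurL_sub A B

theorem laur_pow (A : MvPolynomial (Fin (n + 1)) ℂ) (N : ℕ) : laur (A ^ N) = laur A ^ N :=
  Pool.Agent.Y768.KC.laurL_pow A N

theorem laur_sum {ι : Type} (s : Finset ι) (A : ι → MvPolynomial (Fin (n + 1)) ℂ) :
    laur (∑ i ∈ s, A i) = ∑ i ∈ s, laur (A i) := by
  unfold laur
  rw [map_sum]

/-- the parts of the dehomogenization -/
theorem laur_wp (l : Fin n → ℤ) (k : ℤ) (A : MvPolynomial (Fin (n + 1)) ℂ) :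
    laur (wp (lc l) k A) = wpart l k (laur A) := by
  classical
  have h1 : wp (lc l) k A = ∑ c ∈ A.support, wp (lc l) k (monomial c (coeff c A)) := by
    conv_lhs => rw [A.as_sum]
    rw [wp_sum]
  have h2 : laur A = ∑ c ∈ A.support, laur (monomial c (coeff c A)) := by
    conv_lhs => rw [A.as_sum]
    rw [laur_sum]
  rw [h1, h2, laur_sum, wpart_sum]
  refine Finset.sum_congr rfl fun c _ => ?_
  have h3 : wp (lc l) k (monomial c (coeff c A)) =
      if wc (lc l) c = k then monomial c (coeff c A) else 0 := by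
    ext c'
    rw [wp_coeff, coeff_monomial]
    by_cases h : c = c'
    · subst h
      rw [if_pos rfl]
      split_ifs
      · rw [coeff_monomial, if_pos rfl]
      · rw [coeff_zero]
    · rw [if_neg h]
      split_ifs <;> simp [coeff_monomial, h]
  rw [h3, laur_monomial, wpart_single, ← wc_lc]
  split_ifs
  · exact laur_monomial _ _
  · simp [laur]

theorem hom_mul {l : Fin (n + 1) → ℤ} {A B : MvPolynomial (Fin (n + 1)) ℂ} (hA : Hom l A)
    (hB : Hom l B) : Hom l (A * B) := by
  classical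
  obtain ⟨a, ha⟩ := hA
  obtain ⟨b, hb⟩ := hB
  refine ⟨a + b, fun c hc => ?_⟩
  obtain ⟨c1, h1, c2, h2, rfl⟩ := Finset.mem_add.mp (support_mul A B hc)
  rw [← ha c1 h1, ← hb c2 h2, ← Finset.sum_add_distrib]
  refine Finset.sum_congr rfl fun i _ => ?_
  rw [Finsupp.add_apply]
  push_cast
  ring

theorem hom_monomial (l : Fin (n + 1) → ℤ) (c : Fin (n + 1) →₀ ℕ) (a : ℂ) :
    Hom l (MvPolynomial.monomial c a) := by
  classical
  refine ⟨∑ i, l i * c i, fun c' hc' => ?_⟩
  rw [MvPolynomial.mem_support_iff, coeff_monomial] at hc'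
  split_ifs at hc' with h
  · rw [h]
  · exact absurd rfl hc'

theorem X0_pow (k : ℕ) : (MvPolynomial.X 0 : MvPolynomial (Fin (n + 1)) ℂ) ^ k =
    monomial (Finsupp.single 0 k) 1 := by
  rw [X_pow_eq_monomial]

theorem hom_of_laur {l : Fin n → ℤ} {U : MvPolynomial (Fin (n + 1)) ℂ} {d : ℕ}
    (hU : U.IsHomogeneous d) (w : ℤ) (h : ∀ m ∈ (laur U).coeff.support, wt l m = w) :
    Hom (lc l) U := by
  refine ⟨w, fun c hc => ?_⟩
  have h1 : coeff c U ≠ 0 := mem_support_iff.mp hc
  have h2 : c.degree = d := by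
    by_contra h3
    exact h1 (hU.coeff_eq_zero h3)
  have h4 : (laur U).coeff (Pool.Agent.Y768.KC.sh c) = coeff c U :=
    Pool.Agent.Y768.KC.coeff_laurL hU h2
  have h5 := h (Pool.Agent.Y768.KC.sh c) (by
    rw [Finsupp.mem_support_iff, h4]
    exact h1)
  rw [← h5, ← wc_lc]
  rfl

/-- the weights of a product with a monomial -/
theorem supp_mul_single {l : Fin n → ℤ} {D : Lau n} {w : ℤ}
    (hD : ∀ m ∈ D.coeff.support, wt l m = w) (m0 : Fin n → ℤ) (c : ℂ) :
    ∀ m ∈ (D * AddMonoidAlgebra.single m0 c).coeff.support, wt l m = w + wt l m0 := by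
  classical
  intro m hm
  by_contra hne
  have h1 : wpart l (wt l m) (D * AddMonoidAlgebra.single m0 c) = 0 := by
    rw [wpart_mul l _ w D _ hD, wpart_single, if_neg (by omega), mul_zero]
  have h2 := wpart_coeff' l (wt l m) (D * AddMonoidAlgebra.single m0 c) m
  rw [h1, if_pos rfl] at h2
  rw [Finsupp.mem_support_iff] at hm
  exact hm (by rw [← h2]; simp)

theorem t_zred : St_zred := by
  classical
  intro n r X K _ _ x hv ⟨l, hl, hker, A, D, S, a, hj⟩
  have hxm : ∀ c : Fin (n + 1) →₀ ℕ, ep x (laur (monomial c (1 : ℂ))) ≠ 0 := by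
    intro c
    rw [laur_monomial, ep_single, one_smul]
    exact Units.ne_zero _
  have hhom : ∀ (f : MvPolynomial (Fin (n + 1)) ℂ) (d : ℕ), f.IsHomogeneous d → f ∈ X.I →
      ∀ k, wp (lc l) k f ∈ X.I := by
    intro f d hf hfI k
    rw [← hv _ d (wp_hom _ _ hf), laur_wp]
    exact hker _ ((hv f d hf).mpr hfI) k
  refine ⟨lc l, ?_, ?_, ?_, ?_⟩
  · obtain ⟨i, hi⟩ : ∃ i, l i ≠ 0 := by
      by_contra h
      push Not at h
      exact hl (funext h)
    refine ⟨i.succ, 0, ?_⟩
    simpa [lc] using hi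
  · intro f hf k
    rw [← sum_homogeneousComponent f, wp_sum]
    exact X.I.sum_mem fun d _ => hhom _ d (homogeneousComponent_isHomogeneous d f) (X.hom f hf d) k
  · obtain ⟨h1, h2, h3, h4, h5, h6⟩ := hj 0
    refine ⟨wt l (a 0), ?_⟩
    have hFL : X.FL 0 = laur X.G := rfl
    have heL : X.eL 0 = 0 := rfl
    rw [hFL, heL, pow_zero, mul_one] at h6
    rw [← hv _ X.q (X.hG.sub (wp_hom _ _ X.hG)), laur_sub, laur_wp]
    refine sub_wpart_mem (RingHom.ker (ep x)) l _ _ fun k hk => ?_
    have h7 : D 0 * laur X.G - A 0 * AddMonoidAlgebra.single (a 0) 1 ∈ RingHom.ker (ep x) := by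
      rw [RingHom.mem_ker, map_sub, h6, sub_self]
    have h8 := hker _ h7 k
    rw [wpart_sub, wpart_mul l k 0 (D 0) _ h1, wpart_mul l k 0 (A 0) _ h2, wpart_single,
      sub_zero, if_neg (fun h => hk h.symm), mul_zero, sub_zero, RingHom.mem_ker, map_mul] at h8
    rw [RingHom.mem_ker]
    exact (mul_eq_zero.mp h8).resolve_left h3
  · intro j
    obtain ⟨h1, h2, h3, h4, h5, h6⟩ := hj j.succ
    have hFL : X.FL j.succ = laur (X.F j) := rfl
    have heL : X.eL j.succ = X.e j := rfl
    rw [hFL, heL] at h6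
    set e := X.e j with he
    obtain ⟨m1, d1, U1, hU1, e1⟩ := Pool.Agent.Y768.KC.exists_hom (D j.succ)
    obtain ⟨m2, d2, U2, hU2, e2⟩ := Pool.Agent.Y768.KC.exists_hom
      (A j.succ * AddMonoidAlgebra.single (a j.succ) 1)
    obtain ⟨m3, d3, U3, hU3, e3⟩ := Pool.Agent.Y768.KC.exists_hom (S j.succ)
    have e1' : laur U1 = D j.succ * laur (monomial m1 1) := e1.symm
    have e2' : laur U2 = A j.succ * AddMonoidAlgebra.single (a j.succ) 1 * laur (monomial m2 1) :=
      e2.symm
    have e3' : laur U3 = S j.succ * laur (monomial m3 1) := e3.symm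
    have hX0 : ∀ k : ℕ, laur ((MvPolynomial.X 0 : MvPolynomial (Fin (n + 1)) ℂ) ^ k) = 1 := by
      intro k
      rw [laur_eq, Pool.Agent.Y768.KC.laurL_pow, Pool.Agent.Y768.KC.laurL_X0, one_pow]
    set p1 : ℕ := d2 + m1.degree + e * d3 with hp1
    set p2 : ℕ := d1 + m2.degree + e * m3.degree + X.d j with hp2
    set D' : MvPolynomial (Fin (n + 1)) ℂ :=
      U1 * monomial m2 1 * monomial m3 1 ^ e * MvPolynomial.X 0 ^ p1 with hD'
    set H' : MvPolynomial (Fin (n + 1)) ℂ := U2 * monomial m1 1 * MvPolynomial.X 0 ^ p2 with hH'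
    have hmon : ∀ c : Fin (n + 1) →₀ ℕ,
        (monomial c (1 : ℂ) : MvPolynomial (Fin (n + 1)) ℂ).IsHomogeneous c.degree := fun c =>
      isHomogeneous_monomial _ rfl
    have hD'h : D'.IsHomogeneous (d1 + m2.degree + m3.degree * e + p1) :=
      ((hU1.mul (hmon m2)).mul ((hmon m3).pow e)).mul (isHomogeneous_X_pow _ _)
    have hH'h : H'.IsHomogeneous (d2 + m1.degree + p2) :=
      (hU2.mul (hmon m1)).mul (isHomogeneous_X_pow _ _)
    have hlD : laur D' = D j.succ * laur (monomial m1 1) * laur (monomial m2 1) *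
        laur (monomial m3 1) ^ e := by
      rw [hD', laur_mul, laur_mul, laur_mul, laur_pow, hX0, mul_one, e1']
    have hlH : laur H' = A j.succ * AddMonoidAlgebra.single (a j.succ) 1 *
        laur (monomial m2 1) * laur (monomial m1 1) := by
      rw [hH', laur_mul, laur_mul, hX0, mul_one, e2']
    have hDI : D' ∉ X.I := by
      intro h
      have h7 := (hv _ _ hD'h).mpr h
      rw [hlD, map_mul, map_mul, map_mul, map_pow] at h7
      exact mul_ne_zero (mul_ne_zero (mul_ne_zero h3 (hxm m1)) (hxm m2))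
        (pow_ne_zero _ (hxm m3)) h7
    have hsing : ep x (AddMonoidAlgebra.single (a j.succ) 1) ≠ 0 := by
      rw [ep_single, one_smul]
      exact Units.ne_zero _
    have hHI : H' ∉ X.I := by
      intro h
      have h7 := (hv _ _ hH'h).mpr h
      rw [hlH, map_mul, map_mul, map_mul] at h7
      exact mul_ne_zero (mul_ne_zero (mul_ne_zero h4 hsing) (hxm m2)) (hxm m1) h7
    have hSI : U3 ∉ X.I := by
      intro h
      have h7 := (hv _ _ hU3).mpr h
      rw [e3', map_mul] at h7
      exact mul_ne_zero h5 (hxm m3) h7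
    refine ⟨D', H', U3, hDI, hHI, hSI, ?_, ?_, ⟨_, hD'h⟩, ⟨_, hH'h⟩, ⟨_, hU3⟩, ?_⟩
    · have hU : Hom (lc l) U1 := by
        refine hom_of_laur hU1 (0 + wt l (Pool.Agent.Y768.KC.sh m1)) ?_
        rw [e1', laur_monomial]
        exact supp_mul_single h1 _ _
      have hmon3 : Hom (lc l) ((monomial m3 (1 : ℂ)) ^ e) := by
        rw [monomial_pow]
        exact hom_monomial _ _ _
      rw [hD', X0_pow]
      exact hom_mul (hom_mul (hom_mul hU (hom_monomial _ _ _)) hmon3) (hom_monomial _ _ _)
    · have hU : Hom (lc l) U2 := by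
        refine hom_of_laur hU2
          ((0 + wt l (a j.succ)) + wt l (Pool.Agent.Y768.KC.sh m2)) ?_
        rw [e2', laur_monomial]
        exact supp_mul_single (supp_mul_single h2 _ _) _ _
      rw [hH', X0_pow]
      exact hom_mul (hom_mul hU (hom_monomial _ _ _)) (hom_monomial _ _ _)
    · have hdeg1 : (D' * X.F j).IsHomogeneous (d1 + m2.degree + m3.degree * e + p1 + X.d j) :=
        hD'h.mul (X.hF j)
      have hdeg2 : (H' * U3 ^ e).IsHomogeneous (d1 + m2.degree + m3.degree * e + p1 + X.d j) := by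
        have := hH'h.mul (hU3.pow e)
        have hh : d2 + m1.degree + p2 + d3 * e =
            d1 + m2.degree + m3.degree * e + p1 + X.d j := by
          rw [hp1, hp2]
          ring
        rwa [hh] at this
      rw [← hv _ _ (hdeg1.sub hdeg2), laur_sub, laur_mul D' (X.F j), laur_mul H' (U3 ^ e),
        laur_pow U3 e, hlD, hlH, e3']
      have h7 : ep x (D j.succ) * ep x (laur (X.F j)) =
          ep x (A j.succ) * ep x (AddMonoidAlgebra.single (a j.succ) 1) * ep x (S j.succ) ^ e := by
        rw [← map_mul, h6, map_mul, map_mul, map_pow]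
      simp only [map_sub, map_mul, map_pow]
      rw [mul_pow]
      linear_combination (ep x (laur (monomial m1 1)) * ep x (laur (monomial m2 1)) *
        ep x (laur (monomial m3 1)) ^ e) * h7

end Pool.Agent.Y658.KZ
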